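import Mathlib

/-!
# Not every odd number is a gap from `2 ^ n` to the next odd semiprime

`a n` is the distance from `2 ^ n` to the least odd semiprime above it. We show that a whole
arithmetic progression of odd numbers `c + M j` contains no value of `a`.

The proof is a double covering: `c` is chosen such that for every `n` at least two of the 34 primes in
the list `P` divide `2 ^ n + c`. The product of any two of them is less than `c`, so that `2 ^ n + c` has at
least three prime factors (counted with multiplicity) and is not a semiprime. The orders of `2` modulo the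
34 primes divide `1440`.
-/

set_option autoImplicit false

namespace Pool.Agent.Results.MP_c49196_nt.DoubleCovering

/-- A semiprime is a product of two primes, not necessarily distinct. -/
def Semiprime (s : ℕ) : Prop := ∃ p q : ℕ, p.Prime ∧ q.Prime ∧ s = p * q

/-- `a n` is the distance from `2 ^ n` to the least odd semiprime that exceeds `2 ^ n`. -/
noncomputable def a (n : ℕ) : ℕ := sInf {s : ℕ | 2 ^ n < s ∧ Odd s ∧ Semiprime s} - 2 ^ n

/-- the covering primes -/
def P : List ℕ := [3, 5, 7, 11, 13, 17, 19, 31, 37, 41, 61, 73, 97, 109, 151, 181, 193, 241, 257, 331, 433, 577, 631, 673, 1321, 23311, 38737, 54001, 61681, 65537, 414721, 18837001, 22253377, 29247661]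

/-- the residue class: every `2 ^ n + c` is divisible by two of the covering primes -/
def c : ℕ := 242256734624837971982188278671433705392644641036965099331523983151531431628527581963055271355981329

/-- twice the product of the covering primes -/
def M : ℕ := 326241725393871143443381301305907047667916893527357514963618971887191116383975230287164123549295830

theorem prime_P : ∀ p ∈ P, p.Prime := by
  intro p hp
  simp only [P, List.mem_cons, List.not_mem_nil, or_false] at hp
  rcases hp with rfl | rfl | rfl | rfl | rfl | rfl | rfl | rfl | rfl | rfl | rfl | rfl | rfl | rfl | rfl | rfl | rfl | rfl | rfl | rfl | rfl | rfl | rfl | rfl | rfl | rfl | rfl | rfl | rfl | rfl | rfl | rfl | rfl | rfl <;> norm_num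

theorem cover : ∀ r < 1440, ∃ p ∈ P, ∃ q ∈ P, p ≠ q ∧ (2 ^ r + c) % p = 0 ∧ (2 ^ r + c) % q = 0 := by
  decide +kernel

theorem pow_P : ∀ p ∈ P, 2 ^ 1440 % p = 1 % p := by decide +kernel

theorem M_P : ∀ p ∈ P, M % p = 0 := by decide +kernel

theorem lt_c : ∀ p ∈ P, ∀ q ∈ P, p * q < c := by decide +kernel

theorem dvd_iff {p : ℕ} (hp : p ∈ P) (j n : ℕ) (h : (2 ^ (n % 1440) + c) % p = 0) :
    p ∣ 2 ^ n + (c + M * j) := by
  rw [← add_assoc]
  refine dvd_add ?_ (Dvd.dvd.mul_right (Nat.dvd_of_mod_eq_zero (M_P p hp)) j)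
  have h1 : 2 ^ n ≡ 2 ^ (n % 1440) [MOD p] := by
    have h2 : (2 ^ 1440) ^ (n / 1440) ≡ 1 ^ (n / 1440) [MOD p] := Nat.ModEq.pow _ (pow_P p hp)
    have h3 := h2.mul_right (2 ^ (n % 1440))
    rwa [one_pow, one_mul, ← pow_mul, ← pow_add, Nat.div_add_mod] at h3
  exact (Nat.modEq_zero_iff_dvd.1 ((h1.add_right c).trans h))

theorem not_semiprime (j n : ℕ) : ¬ Semiprime (2 ^ n + (c + M * j)) := by
  rintro ⟨u, v, hu, hv, huv⟩
  obtain ⟨p, hp, q, hq, hpq, h1, h2⟩ := cover (n % 1440) (Nat.mod_lt _ (by norm_num))
  have hp' := prime_P p hp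
  have hq' := prime_P q hq
  have d1 := dvd_iff hp j n h1
  have d2 := dvd_iff hq j n h2
  have hlt := lt_c p hp q hq
  have hpos : c ≤ 2 ^ n + (c + M * j) :=
    le_trans (Nat.le_add_right c (M * j)) (Nat.le_add_left _ _)
  rw [huv] at d1 d2 hpos
  have key : u * v = p * q := by
    rcases (hp'.dvd_mul).1 d1 with e | e
    · have e1 : p = u := (Nat.prime_dvd_prime_iff_eq hp' hu).1 e
      subst e1
      rcases (hq'.dvd_mul).1 d2 with e' | e'
      · exact absurd ((Nat.prime_dvd_prime_iff_eq hq' hu).1 e').symm hpq
      · rw [(Nat.prime_dvd_prime_iff_eq hq' hv).1 e']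
    · have e1 : p = v := (Nat.prime_dvd_prime_iff_eq hp' hv).1 e
      subst e1
      rcases (hq'.dvd_mul).1 d2 with e' | e'
      · rw [(Nat.prime_dvd_prime_iff_eq hq' hu).1 e', mul_comm]
      · exact absurd ((Nat.prime_dvd_prime_iff_eq hq' hv).1 e').symm hpq
  omega

/-- There is an infinite arithmetic progression of odd positive integers none of which is a value of
`a`; in particular not every odd positive integer is a value of `a`. -/
theorem result : ∃ k₀ D : ℕ, 0 < D ∧ ∀ j : ℕ, Odd (k₀ + D * j) ∧ ∀ n : ℕ, a n ≠ k₀ + D * j := by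
  refine ⟨c, M, by decide +kernel, fun j => ⟨?_, fun n hn => ?_⟩⟩
  · have h1 : Odd c := Nat.odd_iff.2 (by decide +kernel)
    have h2 : Even M := Nat.even_iff.2 (by decide +kernel)
    exact h1.add_even (h2.mul_right j)
  · have hc : 0 < c := by decide +kernel
    unfold a at hn
    set S : Set ℕ := {s : ℕ | 2 ^ n < s ∧ Odd s ∧ Semiprime s} with hS
    have hne : S.Nonempty := by
      by_contra hcon
      rw [Set.not_nonempty_iff_eq_empty] at hcon
      rw [hcon, Nat.sInf_empty, Nat.zero_sub] at hn
      omega
    have hmem := Nat.sInf_mem hne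
    obtain ⟨h1, h2, h3⟩ := hmem
    have h4 : sInf S = 2 ^ n + (c + M * j) := by omega
    rw [h4] at h3
    exact not_semiprime j n h3

end Pool.Agent.Results.MP_c49196_nt.DoubleCovering
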